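import Mathlib

namespace Pool.Agent.Results.MP_6fd06d_co.PglNotRobust

open Matrix OnePoint

/-! ### Definitions -/

/-- The derangements of a permutation group. -/
def Der {Ω : Type*} (G : Subgroup (Equiv.Perm Ω)) : Set G :=
  {g | ∀ x : Ω, (g : Equiv.Perm Ω) x ≠ x}

/-- `D_{i→j}`: the derangements in `G` that map `i` to `j`. -/
def DerTo {Ω : Type*} (G : Subgroup (Equiv.Perm Ω)) (i j : Ω) : Set G :=
  {g | g ∈ Der G ∧ (g : Equiv.Perm Ω) i = j}

/-- The Cayley graph `Cay(G,S)` of an inverse-closed set `S` of nonidentity elements: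
`g` and `h` are adjacent if and only if `h g⁻¹ ∈ S`. -/
def Cay {G : Type*} [Group G] (S : Set G) : SimpleGraph G :=
  SimpleGraph.fromRel fun g h => h * g⁻¹ ∈ S

/-- `G` is strict EKR robust: `α(Cay(G, Der(G) \ D)) = |G|/n` for every inverse-closed set `D`
of derangements that contains `D_{i→j} ∪ D_{j→i}` for no distinct points `i`, `j`. -/
def StrictEKRRobust {Ω : Type*} (G : Subgroup (Equiv.Perm Ω)) : Prop :=
  ∀ D : Set G, D ⊆ Der G → (∀ g ∈ D, g⁻¹ ∈ D) →
    (∀ i j : Ω, i ≠ j → ¬ (DerTo G i j ∪ DerTo G j i ⊆ D)) →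
    (Cay (Der G \ D)).indepNum = Nat.card G / Nat.card Ω

/-- `PGL(2,K)` as a permutation group on the projective line `K ∪ {∞}`: the permutations induced
by the (Möbius) action of `GL(2,K)`. -/
def PGL2 (K : Type*) [Field K] [DecidableEq K] : Subgroup (Equiv.Perm (OnePoint K)) :=
  (MulAction.toPermHom (GL (Fin 2) K) (OnePoint K)).range

/-! ### Elements of `PGL(2,K)` -/

variable {K : Type*} [Field K] [DecidableEq K]

/-- the permutation induced by a matrix -/
def elt (a b c d : K) (h : a * d - b * c ≠ 0) : PGL2 K :=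
  ⟨MulAction.toPermHom (GL (Fin 2) K) (OnePoint K)
    (Matrix.GeneralLinearGroup.mkOfDetNeZero !![a, b; c, d] (by
      rw [Matrix.det_fin_two_of]; exact h)), ⟨_, rfl⟩⟩

lemma elt_infty (a b c d : K) (h : a * d - b * c ≠ 0) :
    (elt a b c d h : Equiv.Perm (OnePoint K)) ∞ = if c = 0 then ∞ else ((a / c : K) : OnePoint K) := by
  unfold elt
  simp only [MulAction.toPermHom_apply, MulAction.toPerm_apply]
  rw [OnePoint.smul_infty_eq_ite]
  simp [Matrix.GeneralLinearGroup.mkOfDetNeZero]

lemma elt_coe (a b c d : K) (h : a * d - b * c ≠ 0) (x : K) :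
    (elt a b c d h : Equiv.Perm (OnePoint K)) (x : OnePoint K) =
      if c * x + d = 0 then ∞ else (((a * x + b) / (c * x + d) : K) : OnePoint K) := by
  unfold elt
  simp only [MulAction.toPermHom_apply, MulAction.toPerm_apply]
  rw [OnePoint.smul_some_eq_ite]
  simp [Matrix.GeneralLinearGroup.mkOfDetNeZero]


/-- a derangement `0 → ∞ → j` -/
lemma exists_der_one [Finite K] {j : K} (hj : j ≠ 0) :
    ∃ g : PGL2 K, g ∈ Der (PGL2 K) ∧ (g : Equiv.Perm (OnePoint K)) ((0 : K) : OnePoint K) = ∞ ∧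
      (g : Equiv.Perm (OnePoint K)) ∞ = (j : OnePoint K) := by
  obtain ⟨c, hc⟩ : ∃ c : K, ∀ x : K, x * (x - j) ≠ c := by
    by_contra hcon
    push Not at hcon
    have hs : Function.Surjective fun x : K => x * (x - j) := fun c => hcon c
    have hi := Finite.injective_iff_surjective.2 hs
    have : (0 : K) = j := hi (by simp)
    exact hj this.symm
  have hc0 : c ≠ 0 := fun h => hc 0 (by simp [h])
  refine ⟨elt j c 1 0 (by simpa using hc0), ?_, ?_, ?_⟩
  · intro x
    cases x with
    | infty => rw [elt_infty]; simp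
    | coe x =>
      rw [elt_coe]
      split_ifs with h
      · exact (OnePoint.coe_ne_infty x).symm
      · intro h2
        have h3 := OnePoint.coe_injective h2
        rw [one_mul, add_zero] at h h3
        rw [div_eq_iff h] at h3
        apply hc x
        linear_combination -h3
  · rw [elt_coe]; simp
  · rw [elt_infty]; simp

/-- a derangement `0 → ∞`, `i → j` -/
lemma exists_der_two [Finite K] {i j : K} (hi : i ≠ 0) (hij : i ≠ j) :
    ∃ g : PGL2 K, g ∈ Der (PGL2 K) ∧ (g : Equiv.Perm (OnePoint K)) ((0 : K) : OnePoint K) = ∞ ∧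
      (g : Equiv.Perm (OnePoint K)) (i : OnePoint K) = (j : OnePoint K) := by
  obtain ⟨c, hc⟩ : ∃ c : K, ∀ x : K, i * x * (x - j) / (i - x) ≠ c := by
    by_contra hcon
    push Not at hcon
    have hs : Function.Surjective fun x : K => i * x * (x - j) / (i - x) := fun c => hcon c
    have hinj := Finite.injective_iff_surjective.2 hs
    have : (0 : K) = i := hinj (by simp)
    exact hi this.symm
  have hc0 : c ≠ 0 := fun h => hc 0 (by simp [h])
  refine ⟨elt (j - c / i) c 1 0 (by simpa using hc0), ?_, ?_, ?_⟩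
  · intro x
    cases x with
    | infty => rw [elt_infty]; simp
    | coe x =>
      rw [elt_coe]
      split_ifs with h
      · exact (OnePoint.coe_ne_infty x).symm
      · intro h2
        have h3 := OnePoint.coe_injective h2
        rw [one_mul, add_zero] at h h3
        rw [div_eq_iff h] at h3
        have h4 : c * (i - x) = i * x * (x - j) := by
          have h5 : (j - c / i) * x * i = (j * i - c) * x := by field_simp
          linear_combination i * h3 - h5
        by_cases hx : x = i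
        · rw [hx, sub_self, mul_zero] at h4
          have : i * i * (i - j) ≠ 0 := mul_ne_zero (mul_ne_zero hi hi) (sub_ne_zero.2 hij)
          exact this h4.symm
        · apply hc x
          rw [div_eq_iff (sub_ne_zero.2 (Ne.symm hx))]
          exact h4.symm
  · rw [elt_coe]; simp
  · rw [elt_coe, if_neg (by simpa using hi)]
    have h1 : (j - c / i) * i = j * i - c := by rw [sub_mul, div_mul_cancel₀ _ hi]
    rw [h1, one_mul, add_zero, sub_add_cancel, mul_div_cancel_right₀ _ hi]

lemma two_trans {x y : OnePoint K} (hxy : x ≠ y) :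
    ∃ g : PGL2 K, (g : Equiv.Perm (OnePoint K)) ∞ = x ∧
      (g : Equiv.Perm (OnePoint K)) ((0 : K) : OnePoint K) = y := by
  cases x with
  | infty =>
    cases y with
    | infty => exact absurd rfl hxy
    | coe b => 
      refine ⟨elt 1 b 0 1 (by simp), ?_, ?_⟩
      · rw [elt_infty]; simp
      · rw [elt_coe]; simp
  | coe a =>
    cases y with
    | infty =>
      refine ⟨elt a 1 1 0 (by simp), ?_, ?_⟩
      · rw [elt_infty]; simp
      · rw [elt_coe]; simp
    | coe b =>
      have hab : a ≠ b := fun h => hxy (by rw [h])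
      refine ⟨elt a b 1 1 (by simpa using sub_ne_zero.2 hab), ?_, ?_⟩
      · rw [elt_infty]; simp
      · rw [elt_coe]; simp

/-! ### Counting -/

/-- the preimages of `∞` and `0` -/
def pre (g : PGL2 K) : OnePoint K × OnePoint K :=
  ((g : Equiv.Perm (OnePoint K)).symm ∞, (g : Equiv.Perm (OnePoint K)).symm ((0 : K) : OnePoint K))

lemma pre_ne (g : PGL2 K) : (pre g).1 ≠ (pre g).2 := by
  intro h
  have := (g : Equiv.Perm (OnePoint K)).symm.injective h
  exact OnePoint.infty_ne_coe _ this

open Classical in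
lemma fiber_card [Fintype (PGL2 K)] {x y : OnePoint K} (hxy : x ≠ y) :
    (Finset.univ.filter fun g : PGL2 K => pre g = (x, y)).card =
      (Finset.univ.filter fun g : PGL2 K => pre g = (∞, ((0 : K) : OnePoint K))).card := by
  obtain ⟨g0, h1, h2⟩ := two_trans hxy
  refine Finset.card_bij (fun g _ => g * g0) ?_ ?_ ?_
  · intro g hg
    rw [Finset.mem_filter] at hg ⊢
    refine ⟨Finset.mem_univ _, ?_⟩
    have h3 := congrArg Prod.fst hg.2
    have h4 := congrArg Prod.snd hg.2
    simp only [pre] at h3 h4 ⊢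
    rw [Equiv.symm_apply_eq] at h3 h4
    refine Prod.ext ?_ ?_
    · show ((g * g0 : PGL2 K) : Equiv.Perm (OnePoint K)).symm ∞ = ∞
      rw [Equiv.symm_apply_eq]
      show ∞ = (g : Equiv.Perm (OnePoint K)) ((g0 : Equiv.Perm (OnePoint K)) ∞)
      rw [h1, ← h3]
    · show ((g * g0 : PGL2 K) : Equiv.Perm (OnePoint K)).symm ((0 : K) : OnePoint K) =
        ((0 : K) : OnePoint K)
      rw [Equiv.symm_apply_eq]
      show ((0 : K) : OnePoint K) =
        (g : Equiv.Perm (OnePoint K)) ((g0 : Equiv.Perm (OnePoint K)) ((0 : K) : OnePoint K))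
      rw [h2, ← h4]
  · intro a _ b _ h
    exact mul_right_cancel h
  · intro g hg
    rw [Finset.mem_filter] at hg
    refine ⟨g * g0⁻¹, ?_, by simp⟩
    rw [Finset.mem_filter]
    refine ⟨Finset.mem_univ _, ?_⟩
    have h3 := congrArg Prod.fst hg.2
    have h4 := congrArg Prod.snd hg.2
    simp only [pre] at h3 h4
    rw [Equiv.symm_apply_eq] at h3 h4
    have i1 : ((g0⁻¹ : PGL2 K) : Equiv.Perm (OnePoint K)) x = ∞ := by
      show (g0 : Equiv.Perm (OnePoint K)).symm x = ∞
      rw [Equiv.symm_apply_eq, h1]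
    have i2 : ((g0⁻¹ : PGL2 K) : Equiv.Perm (OnePoint K)) y = ((0 : K) : OnePoint K) := by
      show (g0 : Equiv.Perm (OnePoint K)).symm y = ((0 : K) : OnePoint K)
      rw [Equiv.symm_apply_eq, h2]
    refine Prod.ext ?_ ?_
    · show ((g * g0⁻¹ : PGL2 K) : Equiv.Perm (OnePoint K)).symm ∞ = x
      rw [Equiv.symm_apply_eq]
      show ∞ = (g : Equiv.Perm (OnePoint K)) (((g0⁻¹ : PGL2 K) : Equiv.Perm (OnePoint K)) x)
      rw [i1, ← h3]
    · show ((g * g0⁻¹ : PGL2 K) : Equiv.Perm (OnePoint K)).symm ((0 : K) : OnePoint K) = y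
      rw [Equiv.symm_apply_eq]
      show ((0 : K) : OnePoint K) =
        (g : Equiv.Perm (OnePoint K)) (((g0⁻¹ : PGL2 K) : Equiv.Perm (OnePoint K)) y)
      rw [i2, ← h4]

open Classical in
lemma arcs_card [Fintype (PGL2 K)] (A : Finset (OnePoint K × OnePoint K))
    (hA : ∀ a ∈ A, a.1 ≠ a.2) :
    (Finset.univ.filter fun g : PGL2 K => pre g ∈ A).card =
      A.card * (Finset.univ.filter fun g : PGL2 K => pre g = (∞, ((0 : K) : OnePoint K))).card := by
  rw [Finset.card_eq_sum_card_fiberwise (f := pre) (t := A)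
    (fun g hg => by simpa using hg), Finset.card_eq_sum_ones, Finset.sum_mul]
  refine Finset.sum_congr rfl fun a ha => ?_
  rw [one_mul, ← fiber_card (hA a ha)]
  congr 1
  ext g
  simp only [Finset.mem_filter, Finset.mem_univ, true_and]
  constructor
  · rintro ⟨-, h⟩; exact h
  · intro h; exact ⟨by rw [h]; exact ha, h⟩

/-- the set of derangements removed -/
def D0 (K : Type*) [Field K] [DecidableEq K] : Set (PGL2 K) :=
  Der (PGL2 K) \ (DerTo (PGL2 K) ∞ ((0 : K) : OnePoint K) ∪ DerTo (PGL2 K) ((0 : K) : OnePoint K) ∞)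

lemma inv_apply (g : PGL2 K) (x : OnePoint K) :
    ((g⁻¹ : PGL2 K) : Equiv.Perm (OnePoint K)) x = (g : Equiv.Perm (OnePoint K)).symm x := rfl

lemma inv_der {g : PGL2 K} (hg : g ∈ Der (PGL2 K)) : g⁻¹ ∈ Der (PGL2 K) := by
  intro x hx
  rw [inv_apply, Equiv.symm_apply_eq] at hx
  exact hg x hx.symm

lemma inv_derTo {g : PGL2 K} {i j : OnePoint K} (hg : g ∈ DerTo (PGL2 K) i j) :
    g⁻¹ ∈ DerTo (PGL2 K) j i := by
  refine ⟨inv_der hg.1, ?_⟩
  rw [inv_apply, Equiv.symm_apply_eq]
  exact hg.2.symm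

lemma D0_inv : ∀ g ∈ D0 K, g⁻¹ ∈ D0 K := by
  intro g hg
  refine ⟨inv_der hg.1, fun h => hg.2 ?_⟩
  rcases h with h | h
  · right
    have := inv_derTo h
    rwa [inv_inv] at this
  · left
    have := inv_derTo h
    rwa [inv_inv] at this

lemma D0_not [Finite K] : ∀ i j : OnePoint K, i ≠ j →
    ¬ (DerTo (PGL2 K) i j ∪ DerTo (PGL2 K) j i ⊆ D0 K) := by
  intro i j hij hsub
  have key : ∀ g ∈ Der (PGL2 K), (g : Equiv.Perm (OnePoint K)) ((0 : K) : OnePoint K) = ∞ →
      g ∈ D0 K → False := fun g h1 h2 h3 => h3.2 (Or.inr ⟨h1, h2⟩)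
  have hinf : ∀ b : K, ∃ g : PGL2 K, g ∈ Der (PGL2 K) ∧
      (g : Equiv.Perm (OnePoint K)) ((0 : K) : OnePoint K) = ∞ ∧
      (g ∈ DerTo (PGL2 K) ∞ (b : OnePoint K) ∨ g ∈ DerTo (PGL2 K) (b : OnePoint K) ∞) := by
    intro b
    by_cases hb : b = 0
    · obtain ⟨g, h1, h2, h3⟩ := exists_der_one (K := K) one_ne_zero
      refine ⟨g, h1, h2, Or.inr ⟨h1, ?_⟩⟩
      rw [hb]; exact h2
    · obtain ⟨g, h1, h2, h3⟩ := exists_der_one hb
      exact ⟨g, h1, h2, Or.inl ⟨h1, h3⟩⟩
  cases i with
  | infty =>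
    cases j with
    | infty => exact hij rfl
    | coe b =>
      obtain ⟨g, h1, h2, h3⟩ := hinf b
      exact key g h1 h2 (hsub h3)
  | coe a =>
    cases j with
    | infty =>
      obtain ⟨g, h1, h2, h3⟩ := hinf a
      exact key g h1 h2 (hsub (h3.symm))
    | coe b =>
      have hab : a ≠ b := fun h => hij (by rw [h])
      by_cases ha : a = 0
      · have hb : b ≠ 0 := fun h => hab (by rw [ha, h])
        obtain ⟨g, h1, h2, h3⟩ := exists_der_two hb hab.symm
        exact key g h1 h2 (hsub (Or.inr ⟨h1, h3⟩))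
      · obtain ⟨g, h1, h2, h3⟩ := exists_der_two ha hab
        exact key g h1 h2 (hsub (Or.inl ⟨h1, h3⟩))

lemma der_sdiff : Der (PGL2 K) \ D0 K =
    DerTo (PGL2 K) ∞ ((0 : K) : OnePoint K) ∪ DerTo (PGL2 K) ((0 : K) : OnePoint K) ∞ := by
  ext g
  constructor
  · rintro ⟨h1, h2⟩
    by_contra hcon
    exact h2 ⟨h1, hcon⟩
  · intro h
    refine ⟨?_, fun h2 => h2.2 h⟩
    rcases h with h | h
    · exact h.1
    · exact h.1

lemma indep (U : Set (OnePoint K)) : (Cay (Der (PGL2 K) \ D0 K)).IsIndepSet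
    {g : PGL2 K | (pre g).1 ∈ U ∧ (pre g).2 ∉ U} := by
  have key : ∀ g h : PGL2 K, (pre g).1 ∈ U → (pre g).2 ∉ U → (pre h).1 ∈ U → (pre h).2 ∉ U →
      h * g⁻¹ ∈ Der (PGL2 K) \ D0 K → False := by
    intro g h g1 g2 h1 h2 hm
    rw [der_sdiff] at hm
    rcases hm with hm | hm
    · have h3 : (h : Equiv.Perm (OnePoint K)) ((g : Equiv.Perm (OnePoint K)).symm ∞) =
        ((0 : K) : OnePoint K) := hm.2
      have h4 : (pre g).1 = (pre h).2 := by
        simp only [pre]
        rw [Equiv.eq_symm_apply]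
        exact h3
      rw [h4] at g1
      exact h2 g1
    · have h3 : (h : Equiv.Perm (OnePoint K)) ((g : Equiv.Perm (OnePoint K)).symm
        ((0 : K) : OnePoint K)) = ∞ := hm.2
      have h4 : (pre g).2 = (pre h).1 := by
        simp only [pre]
        rw [Equiv.eq_symm_apply]
        exact h3
      rw [← h4] at h1
      exact g2 h1
  intro g hg h hh _ hadj
  rw [Cay, SimpleGraph.fromRel_adj] at hadj
  rcases hadj.2 with h1 | h1
  · exact key g h hg.1 hg.2 hh.1 hh.2 h1
  · exact key h g hh.1 hh.2 hg.1 hg.2 h1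

open Classical in
lemma card_bounds [Fintype K] :
    ∃ s : ℕ, 1 ≤ s ∧ Nat.card (PGL2 K) = (Fintype.card K + 1) * Fintype.card K * s ∧
      ((Fintype.card K + 1) ^ 2 / 4) * s ≤ (Cay (Der (PGL2 K) \ D0 K)).indepNum := by
  have : Fintype (OnePoint K) := inferInstanceAs (Fintype (Option K))
  have : Fintype (PGL2 K) := Fintype.ofFinite _
  have hn : Fintype.card (OnePoint K) = Fintype.card K + 1 := by
    have h0 : Nat.card (OnePoint K) = Nat.card (Option K) := rfl
    rw [← Nat.card_eq_fintype_card, h0, Nat.card_eq_fintype_card, Fintype.card_option]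
  set n := Fintype.card (OnePoint K) with hndef
  refine ⟨(Finset.univ.filter fun g : PGL2 K => pre g = (∞, ((0 : K) : OnePoint K))).card,
    ?_, ?_, ?_⟩
  · rw [Nat.succ_le_iff, Finset.card_pos]
    refine ⟨1, ?_⟩
    rw [Finset.mem_filter]
    exact ⟨Finset.mem_univ _, rfl⟩
  · have h1 := arcs_card (K := K) (Finset.univ.offDiag) (by
      intro a ha
      exact (Finset.mem_offDiag.1 ha).2.2)
    have h2 : (Finset.univ.filter fun g : PGL2 K => pre g ∈ Finset.univ.offDiag) =
        Finset.univ := by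
      rw [Finset.filter_eq_self]
      intro g _
      rw [Finset.mem_offDiag]
      exact ⟨Finset.mem_univ _, Finset.mem_univ _, pre_ne g⟩
    rw [h2, Finset.offDiag_card, Finset.card_univ, Finset.card_univ, ← hndef, hn] at h1
    rw [Nat.card_eq_fintype_card, h1]
    congr 1
    have : (Fintype.card K + 1) * (Fintype.card K + 1) =
      (Fintype.card K + 1) * Fintype.card K + (Fintype.card K + 1) := by ring
    omega
  · obtain ⟨U, -, hU⟩ := Finset.exists_subset_card_eq (s := (Finset.univ : Finset (OnePoint K)))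
      (n := n / 2) (by rw [Finset.card_univ, ← hndef]; omega)
    have h1 := arcs_card (K := K) (U ×ˢ Uᶜ) (by
      intro a ha hcon
      rw [Finset.mem_product, Finset.mem_compl] at ha
      exact ha.2 (hcon ▸ ha.1))
    have h2 := (SimpleGraph.IsIndepSet.card_le_indepNum (G := Cay (Der (PGL2 K) \ D0 K))
      (t := Finset.univ.filter fun g : PGL2 K => pre g ∈ U ×ˢ Uᶜ) (by
        have h3 := indep (K := K) (U : Set (OnePoint K))
        convert h3 using 1
        ext g
        simp))
    rw [h1, Finset.card_product, Finset.card_compl, hU, ← hndef] at h2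
    refine le_trans (le_of_eq ?_) h2
    congr 1
    rw [← hn]
    rcases Nat.even_or_odd' n with ⟨m, hm | hm⟩
    · have e1 : n / 2 = m := by omega
      have e2 : n - m = m := by omega
      rw [e1, e2, hm]
      have : (2 * m) ^ 2 = 4 * (m * m) := by ring
      omega
    · have e1 : n / 2 = m := by omega
      have e2 : n - m = m + 1 := by omega
      rw [e1, e2, hm]
      have : (2 * m + 1) ^ 2 = 4 * (m * (m + 1)) + 1 := by ring
      omega

/-- For every finite field `K` with more than two elements, `PGL(2,K)` in its natural action on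
the projective line is not strict EKR robust. Moreover, with `q = |K|`, there is an inverse-closed
set `D` of derangements, containing no `D_{i→j} ∪ D_{j→i}`, for which the independence number is
at least `⌊(q+1)²/4⌋ / (q(q+1))` times the order of the group. -/
theorem result (K : Type*) [Field K] [Fintype K] [DecidableEq K] (hK : 2 < Fintype.card K) :
    ¬ StrictEKRRobust (PGL2 K) ∧
    ∃ D : Set (PGL2 K), D ⊆ Der (PGL2 K) ∧ (∀ g ∈ D, g⁻¹ ∈ D) ∧
      (∀ i j : OnePoint K, i ≠ j → ¬ (DerTo (PGL2 K) i j ∪ DerTo (PGL2 K) j i ⊆ D)) ∧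
      ((Fintype.card K + 1) ^ 2 / 4) * Nat.card (PGL2 K) ≤
        (Cay (Der (PGL2 K) \ D)).indepNum * (Fintype.card K * (Fintype.card K + 1)) := by
  obtain ⟨s, hs, hG, hI⟩ := card_bounds (K := K)
  have hsub : D0 K ⊆ Der (PGL2 K) := fun g hg => hg.1
  constructor
  · intro hrob
    have h := hrob (D0 K) hsub D0_inv D0_not
    have hn : Nat.card (OnePoint K) = Fintype.card K + 1 := by
      have : Nat.card (OnePoint K) = Nat.card (Option K) := rfl
      rw [this, Nat.card_eq_fintype_card, Fintype.card_option]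
    rw [hG, hn, mul_assoc, Nat.mul_div_cancel_left _ (by omega)] at h
    rw [h] at hI
    have h2 := Nat.le_of_mul_le_mul_right hI hs
    obtain ⟨q, hq⟩ : ∃ q, Fintype.card K = q + 3 := ⟨Fintype.card K - 3, by omega⟩
    rw [hq] at h2
    have h3 : (q + 3 + 1) ^ 2 = q * q + 8 * q + 16 := by ring
    have h4 : q + 4 ≤ (q + 3 + 1) ^ 2 / 4 := by
      rw [Nat.le_div_iff_mul_le (by norm_num), h3]
      nlinarith
    omega
  · refine ⟨D0 K, hsub, D0_inv, D0_not, ?_⟩
    rw [hG]
    calc ((Fintype.card K + 1) ^ 2 / 4) * ((Fintype.card K + 1) * Fintype.card K * s)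
        = (((Fintype.card K + 1) ^ 2 / 4) * s) * (Fintype.card K * (Fintype.card K + 1)) := by ring
      _ ≤ _ := Nat.mul_le_mul_right _ hI

end Pool.Agent.Results.MP_6fd06d_co.PglNotRobust
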